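import Pool.Agent.Lib.MP_97409a_pr.Defs

/-!
# Basic lemmas on the ascending rearrangement and the Kiefer-Wolfowitz step
-/

open MeasureTheory
open scoped ENNReal

namespace Pool.Agent.Lib.MP_97409a_pr

variable {k : ℕ}

theorem ascending_monotone (x : Fin k → ℝ) : Monotone (ascending x) := Tuple.monotone_sort x

theorem ascending_comp (x : Fin k → ℝ) (e : Equiv.Perm (Fin k)) :
    ascending (x ∘ e) = ascending x := by
  have h1 : Monotone (x ∘ (e * Tuple.sort (x ∘ e) : Equiv.Perm (Fin k))) :=
    Tuple.monotone_sort (x ∘ e)
  exact Tuple.unique_monotone h1 (Tuple.monotone_sort x)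

theorem ascending_nonneg {x : Fin k → ℝ} (h : ∀ i, 0 ≤ x i) (i : Fin k) : 0 ≤ ascending x i :=
  h _

theorem card_filter_ascending (x : Fin k → ℝ) (a : ℝ) :
    (Finset.univ.filter fun i => ascending x i ≤ a).card
      = (Finset.univ.filter fun i => x i ≤ a).card := by
  classical
  refine Finset.card_bij (fun i _ => Tuple.sort x i) ?_ ?_ ?_
  · intro i hi
    simpa [ascending] using hi
  · intro i _ j _ h
    exact (Tuple.sort x).injective h
  · intro j hj
    refine ⟨(Tuple.sort x).symm j, ?_, by simp⟩
    simpa [ascending] using hj

theorem ascending_le_iff (x : Fin k → ℝ) (i : Fin k) (a : ℝ) :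
    ascending x i ≤ a ↔ (i : ℕ) < (Finset.univ.filter fun j => x j ≤ a).card := by
  classical
  rw [← card_filter_ascending]
  exact (Tuple.lt_card_le_iff_apply_le_of_monotone (ascending_monotone x)).symm

theorem measurable_ascending : Measurable (ascending : (Fin k → ℝ) → (Fin k → ℝ)) := by
  classical
  rw [measurable_pi_iff]
  intro i
  refine measurable_of_Iic fun a => ?_
  have : (fun x : Fin k → ℝ => ascending x i) ⁻¹' Set.Iic a
      = {x | (i : ℕ) < ∑ j : Fin k, (if x j ≤ a then 1 else 0)} := by
    ext x
    simp only [Set.mem_preimage, Set.mem_Iic, Set.mem_setOf_eq]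
    rw [ascending_le_iff, Finset.card_filter]
  rw [this]
  have hm : Measurable fun x : Fin k → ℝ => ∑ j : Fin k, (if x j ≤ a then 1 else 0 : ℕ) := by
    refine Finset.measurable_sum _ fun j _ => ?_
    exact Measurable.ite (measurableSet_le (measurable_pi_apply j) measurable_const)
      measurable_const measurable_const
  exact measurableSet_lt measurable_const hm

theorem measurable_kwStep [NeZero k] :
    Measurable fun p : (Fin k → ℝ) × ℝ × ℝ => kwStep p.1 p.2.1 p.2.2 := by
  unfold kwStep
  refine measurable_ascending.comp ?_
  rw [measurable_pi_iff]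
  intro i
  by_cases h : i = 0
  · simp only [h, if_true]
    fun_prop
  · simp only [h, if_false]
    fun_prop

/-- If `x i ≤ g i` for all `i` and `g` is monotone, the ascending rearrangement of `x` is also
bounded by `g`. -/
theorem ascending_le_of_le {x g : Fin k → ℝ} (hg : Monotone g) (h : ∀ i, x i ≤ g i) (i : Fin k) :
    ascending x i ≤ g i := by
  classical
  rw [ascending_le_iff]
  have hsub : Finset.Iic i ⊆ (Finset.univ.filter fun j => x j ≤ g i) := by
    intro j hj
    simp only [Finset.mem_Iic] at hj
    simp only [Finset.mem_filter, Finset.mem_univ, true_and]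
    exact (h j).trans (hg hj)
  have := Finset.card_le_card hsub
  rw [Fin.card_Iic] at this
  omega

/-- The unsorted vector in the Kiefer-Wolfowitz step. -/
noncomputable def preStep [NeZero k] (w : Fin k → ℝ) (s t : ℝ) : Fin k → ℝ :=
  fun i => max ((if i = 0 then w i + s else w i) - t) 0

theorem kwStep_eq [NeZero k] (w : Fin k → ℝ) (s t : ℝ) :
    kwStep w s t = ascending (preStep w s t) := rfl

/-- If `w` is the ascending rearrangement of `u` and the smallest entry of `u` is `u 0`, then
the step may be computed from `u`. -/
theorem kwStep_ascending [NeZero k] (u : Fin k → ℝ) (hu : ∀ i, u 0 ≤ u i) (s t : ℝ) :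
    kwStep (ascending u) s t = ascending (preStep u s t) := by
  classical
  set e := Tuple.sort u with he
  have h0 : u (e 0) = u 0 := by
    apply le_antisymm
    · have hm : Monotone (u ∘ e) := Tuple.monotone_sort u
      have := hm (Fin.zero_le (e.symm 0))
      simpa using this
    · exact hu _
  set e' : Equiv.Perm (Fin k) := e.trans (Equiv.swap (e 0) 0) with he'
  have he'0 : e' 0 = 0 := by simp [he']
  have hcomp : ascending u = u ∘ e' := by
    funext i
    simp only [ascending, Function.comp_apply, he', Equiv.trans_apply]
    rw [← he]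
    by_cases h1 : e i = e 0
    · rw [h1, Equiv.swap_apply_left, h0]
    · by_cases h2 : e i = 0
      · rw [h2, Equiv.swap_apply_right, h0]
      · rw [Equiv.swap_apply_of_ne_of_ne h1 h2]
  have hpre : preStep (ascending u) s t = preStep u s t ∘ e' := by
    funext i
    simp only [preStep, hcomp, Function.comp_apply]
    have : (e' i = 0) ↔ i = 0 := by
      constructor
      · intro h
        apply e'.injective
        rw [h, he'0]
      · intro h
        rw [h, he'0]
    by_cases hi : i = 0
    · simp [hi, he'0]
    · simp [hi, this]
  rw [kwStep_eq, hpre, ascending_comp]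

end Pool.Agent.Lib.MP_97409a_pr
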