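import Mathlib

/-!
# GI/GI/k queues with two given moments: definitions

The Kiefer-Wolfowitz workload recursion for the many-server queue GI/GI/k, its stationary laws,
the class of queues with given first and second moments of the interarrival time `T` and of the
service time `S`, and the stationary mean waiting time.
-/

open MeasureTheory
open scoped ENNReal

namespace Pool.Agent.Lib.MP_97409a_pr

/-- The ascending rearrangement of a real `k`-tuple. -/
noncomputable def ascending {k : ℕ} (x : Fin k → ℝ) : Fin k → ℝ := x ∘ Tuple.sort x

/-- One step of the Kiefer-Wolfowitz recursion: a customer with service time `s` arrives at the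
ordered workload vector `w` and joins the least loaded server (index `0`); the next interarrival
time is `t`.  The new vector is the ascending rearrangement of
`((w 0 + s - t)_+, (w 1 - t)_+, ..., (w (k-1) - t)_+)`. -/
noncomputable def kwStep {k : ℕ} [NeZero k] (w : Fin k → ℝ) (s t : ℝ) : Fin k → ℝ :=
  ascending fun i => max ((if i = 0 then w i + s else w i) - t) 0

/-- `μ` is the law of a nonnegative random variable with first moment `a` and (finite) second
moment `b`. -/
structure HasMoments (μ : Measure ℝ) (a b : ℝ) : Prop where
  prob : IsProbabilityMeasure μ
  nonneg : ∀ᵐ x ∂μ, 0 ≤ x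
  integrable_sq : Integrable (fun x => x ^ 2) μ
  mean : ∫ x, x ∂μ = a
  second : ∫ x, x ^ 2 ∂μ = b

/-- `π` is a stationary law of the Kiefer-Wolfowitz workload vector of the `k`-server queue with
service time law `σ` and interarrival time law `τ`: it is a probability measure carried by the
ordered vectors with nonnegative entries, and if `w` has law `π` and `s`, `t` have laws `σ`, `τ`,
all three independent, then `kwStep w s t` has law `π` again. -/
structure IsStationary {k : ℕ} [NeZero k] (σ τ : Measure ℝ) (π : Measure (Fin k → ℝ)) : Prop where
  prob : IsProbabilityMeasure π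
  ordered : ∀ᵐ w ∂π, Monotone w ∧ ∀ i, 0 ≤ w i
  invariant : (π.prod (σ.prod τ)).map (fun p => kwStep p.1 p.2.1 p.2.2) = π

/-- The stationary mean waiting time `E W₁`, with values in `[0, ∞]`: an arriving customer waits
for the workload of the least loaded server. -/
noncomputable def meanWait {k : ℕ} [NeZero k] (π : Measure (Fin k → ℝ)) : ℝ≥0∞ :=
  ∫⁻ w, ENNReal.ofReal (w 0) ∂π

end Pool.Agent.Lib.MP_97409a_pr
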