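import Pool.Agent.Lib.MP_97409a_pr.Defs

/-!
# Two-point laws with prescribed moments
-/

open MeasureTheory
open scoped ENNReal

namespace Pool.Agent.Lib.MP_97409a_pr

/-- The law giving mass `1 - q` to `a` and `q` to `b`. -/
noncomputable def twoPoint (a b q : ℝ) : Measure ℝ :=
  ENNReal.ofReal (1 - q) • Measure.dirac a + ENNReal.ofReal q • Measure.dirac b

theorem twoPoint_prob {a b q : ℝ} (h0 : 0 ≤ q) (h1 : q ≤ 1) :
    IsProbabilityMeasure (twoPoint a b q) := by
  refine ⟨?_⟩
  unfold twoPoint
  simp only [Measure.coe_add, Measure.coe_smul, Pi.add_apply, Pi.smul_apply, measure_univ,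
    smul_eq_mul, mul_one]
  rw [← ENNReal.ofReal_add (by linarith) h0]
  simp

theorem twoPoint_ae {a b q : ℝ} {p : ℝ → Prop} (hp : MeasurableSet {x | p x}) (ha : p a)
    (hb : p b) : ∀ᵐ x ∂(twoPoint a b q), p x := by
  unfold twoPoint
  rw [ae_add_measure_iff]
  constructor
  · refine Measure.ae_smul_measure ?_ _
    rw [ae_dirac_iff hp]
    exact ha
  · refine Measure.ae_smul_measure ?_ _
    rw [ae_dirac_iff hp]
    exact hb

theorem twoPoint_integrable (a b q : ℝ) (f : ℝ → ℝ) (hf : StronglyMeasurable f) :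
    Integrable f (twoPoint a b q) := by
  unfold twoPoint
  refine Integrable.add_measure ?_ ?_
  · refine Integrable.smul_measure ?_ ENNReal.ofReal_ne_top
    exact integrable_dirac' hf (by simp)
  · refine Integrable.smul_measure ?_ ENNReal.ofReal_ne_top
    exact integrable_dirac' hf (by simp)

theorem twoPoint_integral {a b q : ℝ} (h0 : 0 ≤ q) (h1 : q ≤ 1) (f : ℝ → ℝ)
    (hf : StronglyMeasurable f) :
    ∫ x, f x ∂(twoPoint a b q) = (1 - q) * f a + q * f b := by
  unfold twoPoint
  rw [integral_add_measure, integral_smul_measure, integral_smul_measure, integral_dirac,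
    integral_dirac, ENNReal.toReal_ofReal (by linarith), ENNReal.toReal_ofReal h0]
  · simp [smul_eq_mul]
  · refine Integrable.smul_measure ?_ ENNReal.ofReal_ne_top
    exact integrable_dirac' hf (by simp)
  · refine Integrable.smul_measure ?_ ENNReal.ofReal_ne_top
    exact integrable_dirac' hf (by simp)

theorem twoPoint_hasMoments {a b q : ℝ} (ha : 0 ≤ a) (hb : 0 ≤ b) (h0 : 0 ≤ q) (h1 : q ≤ 1) :
    HasMoments (twoPoint a b q) ((1 - q) * a + q * b) ((1 - q) * a ^ 2 + q * b ^ 2) where
  prob := twoPoint_prob h0 h1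
  nonneg := twoPoint_ae measurableSet_Ici ha hb
  integrable_sq := twoPoint_integrable a b q _ (by fun_prop)
  mean := twoPoint_integral h0 h1 _ (by fun_prop)
  second := twoPoint_integral h0 h1 _ (by fun_prop)

end Pool.Agent.Lib.MP_97409a_pr
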