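import Pool.Agent.Lib.MP_97409a_pr.Basic

/-!
# Systems in which nobody waits

If the service time never exceeds `k * t₀` and the interarrival time is never below `t₀`, a
customer never waits (once the system has started empty).  We construct the stationary law of
the workload vector and show that in every stationary law the waiting time vanishes.
-/

open MeasureTheory
open scoped ENNReal

namespace Pool.Agent.Lib.MP_97409a_pr

section Absorbing

variable {k : ℕ} [NeZero k]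

/-- Workload vectors which occur when nobody waits. -/
def Zone (k : ℕ) (t₀ : ℝ) : Set (Fin k → ℝ) := {w | ∀ i, w i ≤ (i : ℕ) * t₀}

theorem measurableSet_zone (t₀ : ℝ) : MeasurableSet (Zone k t₀) := by
  unfold Zone
  rw [Set.ofPred_forall]
  exact MeasurableSet.iInter fun i =>
    measurableSet_le (measurable_pi_apply i) measurable_const

theorem kwStep_mem_zone {t₀ : ℝ} (ht₀ : 0 ≤ t₀) {w : Fin k → ℝ} (hw : w ∈ Zone k t₀) {s t : ℝ}
    (hs : s ≤ k * t₀) (ht : t₀ ≤ t) : kwStep w s t ∈ Zone k t₀ := by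
  obtain ⟨n, rfl⟩ : ∃ n, k = n + 1 := ⟨k - 1, (Nat.succ_pred_eq_of_ne_zero (NeZero.ne k)).symm⟩
  intro i
  rw [kwStep_eq, ← ascending_comp _ (finRotate (n + 1))]
  have hg : Monotone (fun i : Fin (n + 1) => ((i : ℕ) : ℝ) * t₀) := by
    intro a b hab
    have : ((a : ℕ) : ℝ) ≤ ((b : ℕ) : ℝ) := by exact_mod_cast hab
    exact mul_le_mul_of_nonneg_right this ht₀
  refine ascending_le_of_le hg (fun j => ?_) i
  simp only [Function.comp_apply, preStep]
  rcases Fin.eq_castSucc_or_eq_last j with ⟨j, rfl⟩ | rfl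
  · have h1 : finRotate (n + 1) j.castSucc = j.succ := by
      simp
    have h2 : (j.succ : Fin (n + 1)) ≠ 0 := Fin.succ_ne_zero j
    rw [h1, if_neg h2]
    have h3 := hw j.succ
    refine max_le ?_ (by positivity)
    have h4 : ((j.succ : Fin (n + 1)) : ℕ) = (j : ℕ) + 1 := by simp
    rw [h4] at h3
    push_cast at h3
    have h5 : ((j.castSucc : Fin (n + 1)) : ℕ) = (j : ℕ) := by simp
    rw [h5]
    linarith
  · have h1 : finRotate (n + 1) (Fin.last n) = 0 := by simp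
    rw [h1, if_pos rfl]
    have h3 := hw 0
    refine max_le ?_ (by positivity)
    have h4 : ((0 : Fin (n + 1)) : ℕ) = 0 := by simp
    rw [h4] at h3
    push_cast at h3 hs
    have h5 : ((Fin.last n : Fin (n + 1)) : ℕ) = n := by simp
    rw [h5]
    linarith

/-- Workload vectors bounded by `n * t₀`. -/
def Low (k : ℕ) (t₀ : ℝ) (n : ℕ) : Set (Fin k → ℝ) := {w | ∀ i, w i ≤ n * t₀}

theorem measurableSet_low (t₀ : ℝ) (n : ℕ) : MeasurableSet (Low k t₀ n) := by
  unfold Low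
  rw [Set.ofPred_forall]
  exact MeasurableSet.iInter fun i =>
    measurableSet_le (measurable_pi_apply i) measurable_const

theorem kwStep_mem_low {t₀ : ℝ} (ht₀ : 0 ≤ t₀) {n : ℕ} {w : Fin k → ℝ}
    (hw : w ∈ Low k t₀ (n + 1)) {t : ℝ} (ht : t₀ ≤ t) : kwStep w 0 t ∈ Low k t₀ n := by
  intro i
  have : Monotone (fun _ : Fin k => (n : ℝ) * t₀) := fun _ _ _ => le_rfl
  rw [kwStep_eq]
  refine ascending_le_of_le this (fun j => ?_) i
  simp only [preStep, add_zero, ite_self]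
  refine max_le ?_ (by positivity)
  have := hw j
  push_cast at this
  linarith

end Absorbing

section AllStationary

variable {k : ℕ} [NeZero k]

/-- In a system with `S ≤ k t₀`, `T ≥ t₀ > 0` and `P(S = 0) > 0`, every stationary law of the
workload vector is carried by the zero-wait zone. -/
theorem stationary_zone {σ τ : Measure ℝ} [IsProbabilityMeasure σ] [IsProbabilityMeasure τ]
    {t₀ : ℝ} (ht₀ : 0 < t₀) (hS : ∀ᵐ s ∂σ, s ≤ k * t₀) (hT : ∀ᵐ t ∂τ, t₀ ≤ t)
    (h0 : σ {0} ≠ 0) {π : Measure (Fin k → ℝ)} (hπ : IsStationary σ τ π) :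
    ∀ᵐ w ∂π, w ∈ Zone k t₀ := by
  haveI := hπ.prob
  set f : (Fin k → ℝ) × ℝ × ℝ → (Fin k → ℝ) := fun p => kwStep p.1 p.2.1 p.2.2 with hf
  have hfm : Measurable f := measurable_kwStep
  have hinv : ∀ A : Set (Fin k → ℝ), MeasurableSet A →
      (π.prod (σ.prod τ)) (f ⁻¹' A) = π A := by
    intro A hA
    rw [← Measure.map_apply hfm hA, hπ.invariant]
  -- almost sure bounds under the product
  have hST : ∀ᵐ q ∂(σ.prod τ), q.1 ≤ k * t₀ ∧ t₀ ≤ q.2 := by
    have h1 : ∀ᵐ q ∂(σ.prod τ), q.1 ≤ k * t₀ :=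
      (Measure.quasiMeasurePreserving_fst (μ := σ) (ν := τ)).ae hS
    have h2 : ∀ᵐ q ∂(σ.prod τ), t₀ ≤ q.2 :=
      (Measure.quasiMeasurePreserving_snd (μ := σ) (ν := τ)).ae hT
    filter_upwards [h1, h2] with q h3 h4 using ⟨h3, h4⟩
  have hP : ∀ᵐ p ∂(π.prod (σ.prod τ)), p.2.1 ≤ k * t₀ ∧ t₀ ≤ p.2.2 :=
    (Measure.quasiMeasurePreserving_snd (μ := π) (ν := σ.prod τ)).ae hST
  set C := Zone k t₀ with hC
  have hCm : MeasurableSet C := measurableSet_zone t₀
  -- mass does not enter `C` from outside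
  have hstep : (π.prod (σ.prod τ)) ((Cᶜ ×ˢ Set.univ) ∩ f ⁻¹' C) = 0 := by
    have h1 : (π.prod (σ.prod τ)) (f ⁻¹' C) = π C := hinv C hCm
    have h2 : (π.prod (σ.prod τ)) ((C ×ˢ Set.univ) ∩ f ⁻¹' C) = π C := by
      have : (π.prod (σ.prod τ)) ((C ×ˢ Set.univ) ∩ f ⁻¹' C)
          = (π.prod (σ.prod τ)) (C ×ˢ (Set.univ : Set (ℝ × ℝ))) := by
        apply measure_congr
        filter_upwards [hP] with p hp
        apply propext
        constructor
        · intro h
          exact h.1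
        · intro h
          refine ⟨h, ?_⟩
          exact kwStep_mem_zone ht₀.le h.1 hp.1 hp.2
      rw [this, Measure.prod_prod, measure_univ, mul_one]
    have h3 : f ⁻¹' C = ((C ×ˢ (Set.univ : Set (ℝ × ℝ))) ∩ f ⁻¹' C)
        ∪ ((Cᶜ ×ˢ (Set.univ : Set (ℝ × ℝ))) ∩ f ⁻¹' C) := by
      ext p
      simp only [Set.mem_preimage, Set.mem_union, Set.mem_inter_iff, Set.mem_prod, Set.mem_univ,
        and_true, Set.mem_compl_iff]
      tauto
    have h4 : (π.prod (σ.prod τ)) (f ⁻¹' C)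
        = (π.prod (σ.prod τ)) ((C ×ˢ (Set.univ : Set (ℝ × ℝ))) ∩ f ⁻¹' C)
        + (π.prod (σ.prod τ)) ((Cᶜ ×ˢ (Set.univ : Set (ℝ × ℝ))) ∩ f ⁻¹' C) := by
      conv_lhs => rw [h3]
      refine measure_union ?_ ?_
      · rw [Set.disjoint_left]
        rintro p ⟨hp1, _⟩ ⟨hp2, _⟩
        exact hp2.1 hp1.1
      · exact (hCm.compl.prod MeasurableSet.univ).inter (hfm hCm)
    rw [h1, h2] at h4
    have h5 : π C ≠ ∞ := measure_ne_top _ _
    have h6 : π C + 0 = π C + (π.prod (σ.prod τ)) ((Cᶜ ×ˢ (Set.univ : Set (ℝ × ℝ))) ∩ f ⁻¹' C) := by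
      rw [add_zero]; exact h4
    exact ((ENNReal.add_right_inj h5).mp h6).symm
  -- no mass outside `C` at bounded height
  have hlow : ∀ n : ℕ, π (Cᶜ ∩ Low k t₀ n) = 0 := by
    intro n
    induction n with
    | zero =>
      have : Cᶜ ∩ Low k t₀ 0 = ∅ := by
        rw [Set.eq_empty_iff_forall_notMem]
        rintro w ⟨hw1, hw2⟩
        apply hw1
        intro i
        have h1 := hw2 i
        have h2 : (0 : ℝ) ≤ ((i : ℕ) : ℝ) * t₀ := by positivity
        simp only [Nat.cast_zero, zero_mul] at h1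
        linarith
      rw [this, measure_empty]
    | succ n ih =>
      have hAm : MeasurableSet (Cᶜ ∩ Low k t₀ n) := hCm.compl.inter (measurableSet_low t₀ n)
      have h1 : (π.prod (σ.prod τ)) (f ⁻¹' (Cᶜ ∩ Low k t₀ n)) = 0 := by
        rw [hinv _ hAm, ih]
      -- the rectangle `(Cᶜ ∩ Low (n+1)) × {0} × univ`
      set B : Set ((Fin k → ℝ) × ℝ × ℝ) :=
        (Cᶜ ∩ Low k t₀ (n + 1)) ×ˢ (({0} : Set ℝ) ×ˢ (Set.univ : Set ℝ)) with hB
      have h2 : (π.prod (σ.prod τ)) B ≤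
          (π.prod (σ.prod τ)) (f ⁻¹' (Cᶜ ∩ Low k t₀ n)) +
          (π.prod (σ.prod τ)) ((Cᶜ ×ˢ Set.univ) ∩ f ⁻¹' C) := by
        refine le_trans (measure_mono_ae ?_) (measure_union_le _ _)
        filter_upwards [hP] with p hp hpB
        have hpB' : p ∈ B := hpB
        obtain ⟨⟨hp1, hp2⟩, hp3, _⟩ := hpB'
        have hp3' : p.2.1 = 0 := hp3
        have hlo : f p ∈ Low k t₀ n := by
          simp only [hf, hp3']
          exact kwStep_mem_low ht₀.le hp2 hp.2
        by_cases hc : f p ∈ C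
        · right
          exact ⟨⟨hp1, trivial⟩, hc⟩
        · left
          exact ⟨hc, hlo⟩
      rw [h1, hstep, add_zero] at h2
      have h3 : (π.prod (σ.prod τ)) B = π (Cᶜ ∩ Low k t₀ (n + 1)) * σ {0} := by
        rw [hB, Measure.prod_prod, Measure.prod_prod, measure_univ, mul_one]
      rw [h3] at h2
      have h4 := nonpos_iff_eq_zero.mp h2
      rcases mul_eq_zero.mp h4 with h5 | h5
      · exact h5
      · exact absurd h5 h0
  have hcover : Cᶜ ⊆ ⋃ n : ℕ, (Cᶜ ∩ Low k t₀ n) := by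
    intro w hw
    obtain ⟨M, hM⟩ : ∃ M : ℝ, ∀ i, w i ≤ M := by
      obtain ⟨M, hM⟩ := (Set.finite_range w).bddAbove
      exact ⟨M, fun i => hM ⟨i, rfl⟩⟩
    obtain ⟨n, hn⟩ := exists_nat_ge (M / t₀)
    rw [Set.mem_iUnion]
    refine ⟨n, hw, fun i => (hM i).trans ?_⟩
    rwa [div_le_iff₀ ht₀] at hn
  have hzero : π Cᶜ = 0 := measure_mono_null hcover (measure_iUnion_null hlow)
  exact measure_eq_zero_iff_ae_notMem.mp hzero |>.mono fun w hw => by
    simpa using hw

/-- In such a system the mean waiting time is zero in every stationary law. -/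
theorem meanWait_eq_zero {σ τ : Measure ℝ} [IsProbabilityMeasure σ] [IsProbabilityMeasure τ]
    {t₀ : ℝ} (ht₀ : 0 < t₀) (hS : ∀ᵐ s ∂σ, s ≤ k * t₀) (hT : ∀ᵐ t ∂τ, t₀ ≤ t)
    (h0 : σ {0} ≠ 0) {π : Measure (Fin k → ℝ)} (hπ : IsStationary σ τ π) :
    meanWait π = 0 := by
  have h := stationary_zone ht₀ hS hT h0 hπ
  unfold meanWait
  rw [lintegral_eq_zero_iff' ((measurable_pi_apply 0).ennreal_ofReal.aemeasurable)]
  filter_upwards [h] with w hw
  have h1 := hw 0
  have h2 : (((0 : Fin k) : ℕ) : ℝ) = 0 := by simp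
  rw [h2, zero_mul] at h1
  simpa using h1

end AllStationary

end Pool.Agent.Lib.MP_97409a_pr
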