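import Pool.Agent.Lib.MP_97409a_pr.ZeroWait

/-!
# The stationary law of a zero-wait system
-/

open MeasureTheory
open scoped ENNReal

namespace Pool.Agent.Lib.MP_97409a_pr

/-- Remaining workloads brought by the last `m` customers when nobody waits; `z j` is the pair
(service time, following interarrival time) of the `j`-th last customer. -/
noncomputable def resid {m : ℕ} (z : Fin m → ℝ × ℝ) (j : Fin m) : ℝ :=
  max ((z j).1 - ∑ i, if i ≤ j then (z i).2 else 0) 0

theorem measurable_resid {m : ℕ} : Measurable (resid : (Fin m → ℝ × ℝ) → (Fin m → ℝ)) := by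
  unfold resid
  rw [measurable_pi_iff]
  intro j
  refine Measurable.max ?_ measurable_const
  refine Measurable.sub (measurable_fst.comp (measurable_pi_apply j)) ?_
  refine Finset.measurable_sum _ fun i _ => ?_
  by_cases h : i ≤ j
  · simp only [h, if_true]
    exact measurable_snd.comp (measurable_pi_apply i)
  · simp only [h, if_false]
    exact measurable_const

/-- The workload vector of a zero-wait system as a function of the last customers. -/
noncomputable def zeroWaitMap {n : ℕ} (x : Fin n → ℝ × ℝ) : Fin (n + 1) → ℝ :=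
  ascending (Fin.cons 0 (resid x))

theorem measurable_zeroWaitMap {n : ℕ} :
    Measurable (zeroWaitMap : (Fin n → ℝ × ℝ) → (Fin (n + 1) → ℝ)) := by
  unfold zeroWaitMap
  refine measurable_ascending.comp ?_
  rw [measurable_pi_iff]
  intro i
  refine Fin.cases ?_ (fun j => ?_) i
  · simp only [Fin.cons_zero]
    exact measurable_const
  · simp only [Fin.cons_succ]
    exact (measurable_pi_apply j).comp measurable_resid

theorem preStep_cons {n : ℕ} (x : Fin n → ℝ × ℝ) (y : ℝ × ℝ) (hy : 0 ≤ y.2) :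
    preStep (Fin.cons 0 (resid x) : Fin (n + 1) → ℝ) y.1 y.2
      = resid (Fin.cons y x : Fin (n + 1) → ℝ × ℝ) := by
  funext i
  refine Fin.cases ?_ (fun j => ?_) i
  · simp only [preStep, resid, if_true, Fin.cons_zero, zero_add]
    rw [Fin.sum_univ_succ]
    have : ∀ j : Fin n, ¬ (j.succ ≤ (0 : Fin (n + 1))) := by
      intro j h
      exact Fin.succ_ne_zero j (Fin.le_zero_iff.mp h)
    simp [this]
  · simp only [preStep, resid, Fin.succ_ne_zero, if_false, Fin.cons_succ]
    rw [Fin.sum_univ_succ]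
    simp only [Fin.zero_le, if_true, Fin.cons_zero, Fin.cons_succ, Fin.succ_le_succ_iff]
    set a := (x j).1
    set b := ∑ i : Fin n, if i ≤ j then (x i).2 else 0
    rcases le_total (a - b) 0 with h | h
    · rw [max_eq_right h, max_eq_right (by linarith), max_eq_right (by linarith)]
    · rw [max_eq_left h]
      congr 1
      ring

theorem resid_castSucc {n : ℕ} (z : Fin (n + 1) → ℝ × ℝ) (i : Fin n) :
    resid z i.castSucc = resid (Fin.init z : Fin n → ℝ × ℝ) i := by
  simp only [resid, Fin.init]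
  rw [Fin.sum_univ_castSucc]
  have h : ¬ (Fin.last n ≤ i.castSucc) := by
    rw [not_le]; exact Fin.castSucc_lt_last i
  simp [h]

theorem resid_last {n : ℕ} (z : Fin (n + 1) → ℝ × ℝ) {t₀ : ℝ} (hs : ∀ i, (z i).1 ≤ (n + 1 : ℕ) * t₀)
    (ht : ∀ i, t₀ ≤ (z i).2) : resid z (Fin.last n) = 0 := by
  simp only [resid, Fin.le_last, if_true]
  have h1 : ∑ _i : Fin (n + 1), t₀ ≤ ∑ i, (z i).2 := Finset.sum_le_sum fun i _ => ht i
  simp only [Finset.sum_const, Finset.card_univ, Fintype.card_fin, nsmul_eq_mul] at h1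
  have := hs (Fin.last n)
  exact max_eq_right (by linarith)

theorem resid_nonneg {m : ℕ} (z : Fin m → ℝ × ℝ) (j : Fin m) : 0 ≤ resid z j := le_max_right _ _

theorem ascending_snoc_cons {n : ℕ} (r : Fin n → ℝ) (a : ℝ) :
    ascending (Fin.snoc r a : Fin (n + 1) → ℝ) = ascending (Fin.cons a r : Fin (n + 1) → ℝ) := by
  rw [Fin.snoc_eq_cons_rotate]
  exact ascending_comp _ (finRotate (n + 1))

/-- The workload map is compatible with the Kiefer-Wolfowitz step. -/
theorem kwStep_zeroWaitMap {n : ℕ} (x : Fin n → ℝ × ℝ) (y : ℝ × ℝ) {t₀ : ℝ} (ht₀ : 0 ≤ t₀)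
    (hx1 : ∀ i, (x i).1 ≤ (n + 1 : ℕ) * t₀) (hx2 : ∀ i, t₀ ≤ (x i).2)
    (hy1 : y.1 ≤ (n + 1 : ℕ) * t₀) (hy2 : t₀ ≤ y.2) :
    kwStep (zeroWaitMap x) y.1 y.2
      = zeroWaitMap (Fin.init (Fin.cons y x : Fin (n + 1) → ℝ × ℝ) : Fin n → ℝ × ℝ) := by
  unfold zeroWaitMap
  rw [kwStep_ascending, preStep_cons x y (ht₀.trans hy2)]
  · rw [← ascending_snoc_cons]
    congr 1
    funext i
    refine Fin.lastCases ?_ (fun j => ?_) i
    · rw [Fin.snoc_last]
      refine resid_last (t₀ := t₀) _ (fun i => ?_) (fun i => ?_)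
      · refine Fin.cases ?_ (fun j => ?_) i
        · simpa using hy1
        · simpa using hx1 j
      · refine Fin.cases ?_ (fun j => ?_) i
        · simpa using hy2
        · simpa using hx2 j
    · rw [Fin.snoc_castSucc, resid_castSucc]
  · intro i
    refine Fin.cases ?_ (fun j => ?_) i
    · exact le_rfl
    · simp only [Fin.cons_zero, Fin.cons_succ]
      exact resid_nonneg x j

/-- Adding a new customer and forgetting the oldest one preserves the product law. -/
theorem map_shift {n : ℕ} (ν : Measure (ℝ × ℝ)) [IsProbabilityMeasure ν] :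
    ((Measure.pi fun _ : Fin n => ν).prod ν).map
      (fun p => (Fin.init (Fin.cons p.2 p.1 : Fin (n + 1) → ℝ × ℝ) : Fin n → ℝ × ℝ))
      = Measure.pi fun _ : Fin n => ν := by
  have h1 := (measurePreserving_piFinSuccAbove (fun _ : Fin (n + 1) => ν) 0).symm
  have h2 := measurePreserving_piFinSuccAbove (fun _ : Fin (n + 1) => ν) (Fin.last n)
  have h3 : MeasurePreserving (Prod.snd : (ℝ × ℝ) × (Fin n → ℝ × ℝ) → (Fin n → ℝ × ℝ))
      (ν.prod (Measure.pi fun _ : Fin n => ν)) (Measure.pi fun _ : Fin n => ν) :=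
    measurePreserving_snd
  have h4 : MeasurePreserving (Prod.swap : (Fin n → ℝ × ℝ) × (ℝ × ℝ) → (ℝ × ℝ) × (Fin n → ℝ × ℝ))
      ((Measure.pi fun _ : Fin n => ν).prod ν) (ν.prod (Measure.pi fun _ : Fin n => ν)) :=
    Measure.measurePreserving_swap
  have h5 := h3.comp (h2.comp (h1.comp h4))
  have h6 := h5.map_eq
  have h7 : (Prod.snd ∘ (MeasurableEquiv.piFinSuccAbove (fun _ : Fin (n + 1) => ℝ × ℝ) (Fin.last n))
      ∘ (MeasurableEquiv.piFinSuccAbove (fun _ : Fin (n + 1) => ℝ × ℝ) 0).symm ∘ Prod.swap)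
      = (fun p : (Fin n → ℝ × ℝ) × (ℝ × ℝ) =>
        (Fin.init (Fin.cons p.2 p.1 : Fin (n + 1) → ℝ × ℝ) : Fin n → ℝ × ℝ)) := by
    funext p i
    obtain ⟨x, y⟩ := p
    simp only [Function.comp_apply, Prod.swap_prod_mk]
    simp [MeasurableEquiv.piFinSuccAbove, Fin.insertNthEquiv, Fin.init, Fin.removeNth]
  rw [h7] at h6
  exact h6

/-- The law of the workload vector of a zero-wait system is stationary. -/
theorem exists_stationary {n : ℕ} {σ τ : Measure ℝ} [IsProbabilityMeasure σ]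
    [IsProbabilityMeasure τ] {t₀ : ℝ} (ht₀ : 0 ≤ t₀) (hS : ∀ᵐ s ∂σ, s ≤ (n + 1 : ℕ) * t₀)
    (hT : ∀ᵐ t ∂τ, t₀ ≤ t) :
    IsStationary (k := n + 1) σ τ
      ((Measure.pi fun _ : Fin n => σ.prod τ).map zeroWaitMap) := by
  set ν := σ.prod τ with hν
  set P := Measure.pi fun _ : Fin n => ν with hP
  refine ⟨Measure.isProbabilityMeasure_map measurable_zeroWaitMap.aemeasurable, ?_, ?_⟩
  · rw [ae_map_iff measurable_zeroWaitMap.aemeasurable]
    · refine Filter.Eventually.of_forall fun x => ⟨ascending_monotone _, fun i => ?_⟩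
      refine ascending_nonneg (fun j => ?_) i
      refine Fin.cases ?_ (fun j => ?_) j
      · exact le_rfl
      · exact resid_nonneg x j
    · have h1 : {w : Fin (n + 1) → ℝ | Monotone w ∧ ∀ i, 0 ≤ w i}
          = (⋂ i, ⋂ j, {w : Fin (n + 1) → ℝ | i ≤ j → w i ≤ w j}) ∩ ⋂ i, {w | 0 ≤ w i} := by
        ext w
        simp [Monotone]
      rw [h1]
      refine MeasurableSet.inter ?_ ?_
      · refine MeasurableSet.iInter fun i => MeasurableSet.iInter fun j => ?_
        by_cases h : i ≤ j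
        · simp only [h, true_imp_iff]
          exact measurableSet_le (measurable_pi_apply i) (measurable_pi_apply j)
        · simp [h]
      · exact MeasurableSet.iInter fun i => measurableSet_le measurable_const (measurable_pi_apply i)
  · have hST : ∀ᵐ q ∂ν, q.1 ≤ (n + 1 : ℕ) * t₀ ∧ t₀ ≤ q.2 := by
      have h1 : ∀ᵐ q ∂(σ.prod τ), q.1 ≤ (n + 1 : ℕ) * t₀ :=
        (Measure.quasiMeasurePreserving_fst (μ := σ) (ν := τ)).ae hS
      have h2 : ∀ᵐ q ∂(σ.prod τ), t₀ ≤ q.2 :=
        (Measure.quasiMeasurePreserving_snd (μ := σ) (ν := τ)).ae hT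
      filter_upwards [h1, h2] with q h3 h4 using ⟨h3, h4⟩
    have hx : ∀ᵐ x ∂P, ∀ i, (x i).1 ≤ (n + 1 : ℕ) * t₀ ∧ t₀ ≤ (x i).2 := by
      rw [ae_all_iff]
      intro i
      exact (measurePreserving_eval (fun _ : Fin n => ν) i).quasiMeasurePreserving.ae hST
    have hxy : ∀ᵐ p ∂(P.prod ν), (∀ i, (p.1 i).1 ≤ (n + 1 : ℕ) * t₀ ∧ t₀ ≤ (p.1 i).2) ∧
        (p.2.1 ≤ (n + 1 : ℕ) * t₀ ∧ t₀ ≤ p.2.2) := by
      have h1 := (Measure.quasiMeasurePreserving_fst (μ := P) (ν := ν)).ae hx
      have h2 := (Measure.quasiMeasurePreserving_snd (μ := P) (ν := ν)).ae hST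
      filter_upwards [h1, h2] with p h3 h4 using ⟨h3, h4⟩
    have e1 : (P.map zeroWaitMap).prod ν = (P.prod ν).map (Prod.map zeroWaitMap id) := by
      conv_lhs => rw [← Measure.map_id (μ := ν)]
      exact Measure.map_prod_map P ν measurable_zeroWaitMap measurable_id
    rw [e1, Measure.map_map measurable_kwStep (measurable_zeroWaitMap.prodMap measurable_id)]
    have e2 : (P.prod ν).map ((fun p : (Fin (n + 1) → ℝ) × ℝ × ℝ => kwStep p.1 p.2.1 p.2.2) ∘
        Prod.map zeroWaitMap id)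
        = (P.prod ν).map (fun p => zeroWaitMap
          (Fin.init (Fin.cons p.2 p.1 : Fin (n + 1) → ℝ × ℝ) : Fin n → ℝ × ℝ)) := by
      refine Measure.map_congr ?_
      filter_upwards [hxy] with p hp
      exact kwStep_zeroWaitMap p.1 p.2 ht₀ (fun i => (hp.1 i).1) (fun i => (hp.1 i).2)
        hp.2.1 hp.2.2
    rw [e2]
    have hm : Measurable fun p : (Fin n → ℝ × ℝ) × (ℝ × ℝ) =>
        (Fin.init (Fin.cons p.2 p.1 : Fin (n + 1) → ℝ × ℝ) : Fin n → ℝ × ℝ) := by
      rw [measurable_pi_iff]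
      intro i
      simp only [Fin.init]
      obtain ⟨j, hj⟩ : ∃ j : Fin (n + 1), j = i.castSucc := ⟨_, rfl⟩
      rw [← hj]
      refine Fin.cases ?_ (fun l => ?_) j
      · simp only [Fin.cons_zero]
        exact measurable_snd
      · simp only [Fin.cons_succ]
        exact (measurable_pi_apply l).comp measurable_fst
    have e3 := Measure.map_map (μ := P.prod ν) measurable_zeroWaitMap hm
    rw [map_shift] at e3
    exact e3.symm

end Pool.Agent.Lib.MP_97409a_pr
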